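import Pool.Agent.Q253.NF.Stm2
import Pool.Agent.Q92.AR.Fin

/-!
# Project NF (helper253), job IDAT: functions induced by the linear characters of the subgroups
-/

set_option autoImplicit false
set_option linter.unusedSectionVars false
set_option linter.unusedVariables false

namespace Pool.Agent.Q149.NF

open MeasureTheory Filter Topology Set Complex NumberField IsDedekindDomain
open Pool.Agent.Q92.AR (Unramified frob Continues LP artinL fixer Pos resF artinL_induced
  ramified_above_finite fixer_fixedField induced_congr)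
open Pool.Agent.Q92.RT (induced)
open Pool.Agent.Q253.NF

theorem resF_surj (K F M : Type) [Field K] [NumberField K] [Field F] [NumberField F] [Field M]
    [NumberField M] [Algebra K F] [Algebra K M] [Algebra F M] [IsScalarTower K F M] :
    Function.Surjective (resF K F M) := by
  rintro ⟨g, hg⟩
  refine ⟨AlgEquiv.ofRingEquiv (f := g.toRingEquiv) fun x => hg x, ?_⟩
  apply Subtype.ext
  apply AlgEquiv.ext
  intro x
  rfl

theorem idat_field (h1 : S_LTG) (h2 : S_RAYD) (h3 : S_ORDL) (h4 : S_RED) (h5 : S_CHD) (h6 : S_INDK)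
    (K F M : Type) [Field K] [NumberField K] [Field F] [NumberField F] [Field M] [NumberField M]
    [Algebra K F] [Algebra K M] [Algebra F M] [IsScalarTower K F M] [IsGalois K M] [IsGalois F M]
    (ψ : fixer K F M →* ℂˣ) :
    ∃ D : Dat, (D.p = open Classical in if ψ = 1 then 1 else 0) ∧
    (∃ C : ℝ, ∀ u : ℝ, 0 ≤ u → ‖ks {v : HeightOneSpectrum (𝓞 K) | Unramified M v}
      (fun v n => induced (fixer K F M) ψ (frob M v ^ (n + 1))) u - D.E u‖ ≤ C * Real.exp (-(u / 4))) ∧
    (∀ f : ℂ → ℂ, Continues f (artinL M (induced (fixer K F M) ψ)) → ∀ s : ℂ, 0 < s.re →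
      meromorphicOrderAt f s =
        (((D.m (s - 1 / 2) : ℤ) - (if s = 1 then (D.p : ℤ) else 0) : ℤ) : WithTop ℤ)) := by
  classical
  set ψ' : (M ≃ₐ[F] M) →* ℂˣ := ψ.comp (resF K F M) with hψ'
  obtain ⟨D, hD1, hD2, hD3⟩ := h5 h1 h2 h3 h4 F M ψ'
  have hfin : ({w : HeightOneSpectrum (𝓞 F) | Unramified M (w.under (𝓞 K))}ᶜ).Finite :=
    (ramified_above_finite (K := K) (F := F) (M := M)).subset fun w hw => hw
  refine ⟨D, ?_, ?_, ?_⟩
  · rw [hD1]
    have h7 : ψ' = 1 ↔ ψ = 1 := by
      constructor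
      · intro h
        ext x
        obtain ⟨y, rfl⟩ := resF_surj K F M x
        have h8 := DFunLike.congr_fun h y
        exact congrArg Units.val h8
      · intro h
        rw [hψ', h]
        rfl
    by_cases h8 : ψ = 1
    · rw [if_pos h8, if_pos (h7.2 h8)]
    · rw [if_neg h8, if_neg fun h9 => h8 (h7.1 h9)]
  · obtain ⟨C, hC⟩ := hD2 _ hfin
    refine ⟨C, fun u hu => ?_⟩
    rw [h6 K F M ψ ψ' (fun y hy => rfl) u]
    exact hC u hu
  · intro f hf s hs
    refine hD3 _ hfin f ⟨hf.1, fun s hs => ?_⟩ s hs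
    rw [hf.2 s hs, artinL_induced ψ ψ' (fun y hy => rfl) hs]

theorem idat : S_IDAT := by
  intro h1 h2 h3 h4 h5 h6 K M _ _ _ _ _ _ H ψ
  classical
  have h := fixer_fixedField (K := K) (M := M) H
  have hgal : IsGalois (IntermediateField.fixedField H) M := inferInstance
  let ψ1 : fixer K (IntermediateField.fixedField H) M →* ℂˣ :=
    ψ.comp (Subgroup.inclusion (le_of_eq h))
  have h7 : induced (fixer K (IntermediateField.fixedField H) M) ψ1 = induced H ψ :=
    induced_congr h fun x hx hx' => rfl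
  have h8 : ψ1 = 1 ↔ ψ = 1 := by
    constructor
    · intro h9
      ext x
      have h10 := DFunLike.congr_fun h9 ⟨x.1, h.ge x.2⟩
      exact congrArg Units.val h10
    · intro h9
      change ψ.comp _ = 1
      rw [h9]
      rfl
  obtain ⟨D, hD1, hD2, hD3⟩ := idat_field h1 h2 h3 h4 h5 h6 K (IntermediateField.fixedField H) M ψ1
  rw [h7] at hD2 hD3
  refine ⟨D, ?_, hD2, hD3⟩
  rw [hD1]
  by_cases h9 : ψ = 1
  · rw [if_pos h9, if_pos (h8.2 h9)]
  · rw [if_neg h9, if_neg fun h10 => h9 (h8.1 h10)]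

end Pool.Agent.Q149.NF
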